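import Mathlib

namespace Pool.Agent.H.MP_17e2c6_gt

open Set Filter Topology Finset

def cv (κ : ℕ × ℕ → ℝ) (a b : ℕ → ℝ) (k : ℕ) : ℝ := ∑ p ∈ antidiagonal k, κ p * a p.1 * b p.2

def sh (a : ℕ → ℝ) : ℕ → ℝ
  | 0 => 0
  | k + 1 => a k

def Le (a : ℕ → ℝ) (r : ℝ) : Prop := Summable (fun k => |a k|) ∧ ∑' k, |a k| ≤ r

variable {a b : ℕ → ℝ} {r s : ℝ} {κ : ℕ × ℕ → ℝ}

lemma Le.of (h : Le a r) (k : ∀ n, |b n| ≤ |a n|) : Le b r :=
  ⟨.of_nonneg_of_le (fun _ => abs_nonneg _) k h.1, ((Summable.of_nonneg_of_le (fun _ => abs_nonneg _) k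
    h.1).tsum_le_tsum k h.1).trans h.2⟩

lemma Le.add (h : Le a r) (k : Le b s) : Le (fun n => a n + b n) (r + s) :=
  Le.of (a := fun n => |a n| + |b n|) (by
    have e : ∀ n, abs (|a n| + |b n|) = |a n| + |b n| := fun n => abs_of_nonneg (by positivity)
    simp only [Le, e]
    exact ⟨h.1.add k.1, (h.1.tsum_add k.1).trans_le (add_le_add h.2 k.2)⟩) fun n =>
      (abs_add_le _ _).trans (le_abs_self _)

lemma Le.nn (h : Le a r) : 0 ≤ r := (tsum_nonneg fun _ => abs_nonneg _).trans h.2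

lemma Le.cv (hκ : ∀ p, |κ p| ≤ 1) (h : Le a r) (k : Le b s) : Le (cv κ a b) (r * s) := by
  have h1 : Summable fun n => ‖|a n|‖ := by simpa using h.1
  have k1 : Summable fun n => ‖|b n|‖ := by simpa using k.1
  have e : ∀ n, abs (∑ p ∈ antidiagonal n, |a p.1| * |b p.2|) = ∑ p ∈ antidiagonal n, |a p.1| * |b p.2| :=
    fun n => abs_of_nonneg (sum_nonneg fun _ _ => by positivity)
  refine Le.of (a := fun n => ∑ p ∈ antidiagonal n, |a p.1| * |b p.2|)
    ⟨by simpa only [Real.norm_eq_abs] using summable_norm_sum_mul_antidiagonal_of_summable_norm h1 k1,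
      ?_⟩ fun n => ?_
  · simp only [e]
    rw [← tsum_mul_tsum_eq_tsum_sum_antidiagonal_of_summable_norm h1 k1]
    exact mul_le_mul h.2 k.2 (tsum_nonneg fun _ => abs_nonneg _) h.nn
  · rw [e]
    refine (abs_sum_le_sum_abs _ _).trans (sum_le_sum fun p _ => ?_)
    rw [mul_assoc, abs_mul, abs_mul]
    exact mul_le_of_le_one_left (by positivity) (hκ p)

lemma Le.shf (h : Le a r) : Le (sh a) r := by
  have : Summable fun n => |sh a n| := (summable_nat_add_iff 1).1 h.1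
  exact ⟨this, by rw [this.tsum_eq_zero_add]; simpa [sh] using h.2⟩

lemma Le.up {θ : ℕ → ℝ} (hθ : ∀ k, |θ k| ≤ 1 / 4) (h : Le a r) :
    Le (fun k => θ k * a (k + 1)) (r / 4) := by
  have h1 : Summable fun n => |a (n + 1)| := (summable_nat_add_iff (f := fun n => |a n|) 1).2 h.1
  refine Le.of (a := fun k => 1 / 4 * a (k + 1)) ⟨by simpa [abs_mul] using h1.mul_left _, ?_⟩ fun k => ?_
  · simp only [abs_mul, tsum_mul_left]
    linarith [h.2, h.1.tsum_eq_zero_add, abs_nonneg (a 0), abs_of_pos (show (0 : ℝ) < 1 / 4 by norm_num)]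
  · rw [abs_mul, abs_mul]
    exact mul_le_mul_of_nonneg_right ((hθ k).trans (le_abs_self _)) (abs_nonneg _)

lemma Le.mono (h : Le a r) (k : r ≤ s) : Le a s := ⟨h.1, h.2.trans k⟩

lemma le_lp (x : lp (fun _ : ℕ => ℝ) 1) : Le x ‖x‖ := by
  have := lp.hasSum_norm (by simp) x
  simp only [ENNReal.toReal_one, Real.rpow_one, Real.norm_eq_abs] at this
  exact ⟨this.summable, this.tsum_eq.le⟩

lemma lp_le (x : lp (fun _ : ℕ => ℝ) 1) (h : Le x r) : ‖x‖ ≤ r := by
  have := lp.hasSum_norm (by simp) x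
  simp only [ENNReal.toReal_one, Real.rpow_one, Real.norm_eq_abs] at this
  exact this.tsum_eq.ge.trans h.2

lemma fix {θ : ℕ → ℝ} {κ' : ℕ × ℕ → ℝ} {η : ℝ} (hθ : ∀ k, |θ k| ≤ 1 / 4) (hκ : ∀ p, |κ p| ≤ 1)
    (hκ' : ∀ p, |κ' p| ≤ 1) (η0 : 0 ≤ η) (η1 : η ≤ 1 / 16) : ∃ a, Le a (2 * η) ∧
      ∀ k, a k = θ k * a (k + 1) + (Pi.single 0 η : ℕ → ℝ) k + (cv κ a a k + sh (cv κ' a a) k) := by
  have s0 : Le (Pi.single 0 η : ℕ → ℝ) η := by
    have : HasSum (fun k => |(Pi.single 0 η : ℕ → ℝ) k|) η := by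
      simpa [abs_of_nonneg η0] using hasSum_single (f := fun k => |(Pi.single 0 η : ℕ → ℝ) k|) 0
        fun k hk => by simp [hk]
    exact ⟨this.summable, this.tsum_eq.le⟩
  have m : ∀ a r, Le a r → Le (fun k => θ k * a (k + 1) + (Pi.single 0 η : ℕ → ℝ) k + (cv κ a a k +
    sh (cv κ' a a) k)) (r / 4 + η + (r * r + r * r)) := fun a r h =>
      ((h.up hθ).add s0).add ((h.cv hκ h).add (h.cv hκ' h).shf)
  let Φ : lp (fun _ : ℕ => ℝ) 1 → lp (fun _ : ℕ => ℝ) 1 := fun x =>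
    ⟨_, memℓp_gen (by simpa using (m x _ (le_lp x)).1)⟩
  have n : ∀ x ∈ Metric.closedBall (0 : lp (fun _ : ℕ => ℝ) 1) (2 * η), Le x (2 * η) := fun x hx =>
    (le_lp x).mono (mem_closedBall_zero_iff.1 hx)
  obtain ⟨x, x1, x2, -⟩ := ContractingWith.exists_fixedPoint' (f := Φ) (K := 3 / 4)
    Metric.isClosed_closedBall.isComplete (fun x hx => mem_closedBall_zero_iff.2 (lp_le _
      ((m _ _ (n x hx)).mono (by nlinarith)))) ⟨by norm_num, LipschitzWith.of_dist_le_mul fun x y => by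
        have d := le_lp (x.1 - y.1)
        have hx := n _ x.2
        have hy := n _ y.2
        rw [Subtype.dist_eq, Subtype.dist_eq, dist_eq_norm, dist_eq_norm]
        refine lp_le _ ((((d.up hθ).add (((d.cv hκ hx).add (hy.cv hκ d)).add
          ((d.cv hκ' hx).add (hy.cv hκ' d)).shf)).of fun k => le_of_eq (congrArg _ ?_)).mono ?_)
        · have e : ∀ κ k (x y : ℕ → ℝ), cv κ (x - y) x k + cv κ y (x - y) k =
              cv κ x x k - cv κ y y k := fun κ k x y => by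
            simp only [cv, ← sum_add_distrib, ← sum_sub_distrib, Pi.sub_apply]
            exact sum_congr rfl fun p _ => by ring
          rcases k with _ | k
          · simp only [Φ, sh, e, MapsTo.val_restrict_apply, lp.coeFn_sub, Pi.sub_apply]
            ring
          · simp only [Φ, sh, e, MapsTo.val_restrict_apply, lp.coeFn_sub, Pi.sub_apply]
            ring
        · push_cast
          nlinarith [norm_nonneg (x.1 - y.1)]⟩ (Metric.mem_closedBall_self (by positivity)) (edist_ne_top _ _)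
  exact ⟨x, n x x1, fun k => (congrFun (congrArg (↑) x2) k).symm⟩

noncomputable def ev (x : ℕ → ℝ) (σ : ℝ) : ℝ := ∑' k, x k * σ ^ k

variable {σ : ℝ}

lemma Le.sm (h : Le a r) (hσ : |σ| ≤ 1) : Le (fun k => a k * σ ^ k) r := h.of fun k => by
  rw [abs_mul, abs_pow]
  exact mul_le_of_le_one_right (abs_nonneg _) (pow_le_one₀ (abs_nonneg _) hσ)

lemma Le.hs (h : Le a r) (hσ : |σ| ≤ 1) : HasSum (fun k => a k * σ ^ k) (ev a σ) :=
  (Summable.of_norm (h.sm hσ).1).hasSum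

lemma Le.ev_le (h : Le a r) (hσ : |σ| ≤ 1) : |ev a σ| ≤ r :=
  (norm_tsum_le_tsum_norm (f := fun k => a k * σ ^ k) (h.sm hσ).1).trans (h.sm hσ).2

lemma Le.w {y : ℕ → ℝ} {c : ℝ} (h : Le a r) (hy : ∀ k, |y k| ≤ c) : Le (fun k => y k * a k) (c * r) := by
  have c0 := (abs_nonneg _).trans (hy 0)
  refine Le.of (a := fun k => c * a k) ⟨by simpa [abs_mul] using h.1.mul_left _, ?_⟩ fun k => ?_
  · simp only [abs_mul, tsum_mul_left, abs_of_nonneg c0]
    exact mul_le_mul_of_nonneg_left h.2 c0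
  · rw [abs_mul, abs_mul]
    exact mul_le_mul_of_nonneg_right ((hy k).trans (le_abs_self _)) (abs_nonneg _)

lemma Le.pr (h : Le a r) (k : Le b s) (hσ : |σ| ≤ 1) :
    HasSum (fun n => (∑ p ∈ antidiagonal n, a p.1 * b p.2) * σ ^ n) (ev a σ * ev b σ) := by
  have e : ∀ n, (∑ p ∈ antidiagonal n, a p.1 * b p.2) * σ ^ n =
      ∑ p ∈ antidiagonal n, a p.1 * σ ^ p.1 * (b p.2 * σ ^ p.2) := fun n => by
    rw [sum_mul]
    exact sum_congr rfl fun p hp => by rw [← mem_antidiagonal.1 hp]; ring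
  simp only [e, ev]
  have h1 : Summable fun k => ‖a k * σ ^ k‖ := (h.sm hσ).1
  have k1 : Summable fun k => ‖b k * σ ^ k‖ := (k.sm hσ).1
  rw [tsum_mul_tsum_eq_tsum_sum_antidiagonal_of_summable_norm h1 k1]
  exact (summable_norm_sum_mul_antidiagonal_of_summable_norm h1 k1).of_norm.hasSum

lemma Le.ct (h : Le a r) : Continuous fun t : ℝ => ev a (min (t ^ 2 / 4) 1) :=
  continuous_tsum (fun _ => by fun_prop) h.1 fun k t => by
    rw [norm_mul, norm_pow]
    exact mul_le_of_le_one_right (abs_nonneg _) (pow_le_one₀ (norm_nonneg _)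
      ((abs_of_nonneg (by positivity)).trans_le (min_le_right _ _)))

lemma Le.dr {y : ℕ → ℝ} (h : Le a r) (h' : Le (fun k => (2 * k + 1 + y 0) * a k) s) (j : ℕ)
    (hj : y 0 = j) {t : ℝ} (ht : t ∈ Ioo (-2 : ℝ) 2) :
    HasDerivAt (fun t : ℝ => t ^ (j + 1) * ev a (min (t ^ 2 / 4) 1))
      (t ^ j * ev (fun k => (2 * k + 1 + y 0) * a k) (min (t ^ 2 / 4) 1)) t := by
  have m : ∀ t ∈ Ioo (-2 : ℝ) 2, min (t ^ 2 / 4) 1 = t ^ 2 / 4 := fun t ht =>
    min_eq_left (by nlinarith [ht.1, ht.2])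
  have := hasDerivAt_tsum_of_isPreconnected (g := fun k t => t ^ (j + 1) * (a k * (t ^ 2 / 4) ^ k))
    (g' := fun k t => t ^ j * ((2 * k + 1 + y 0) * a k * (t ^ 2 / 4) ^ k)) (h'.1.mul_left (2 ^ j))
    isOpen_Ioo isPreconnected_Ioo (fun k t _ => by
      have := (hasDerivAt_pow (j + 1 + 2 * k) t).const_mul (a k / 4 ^ k)
      refine (this.congr_deriv ?_).congr_of_eventuallyEq (Eventually.of_forall fun t => ?_)
      · rw [hj, div_pow, show j + 1 + 2 * k - 1 = j + 2 * k by omega]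
        push_cast
        ring
      · beta_reduce
        rw [div_pow]
        ring) (fun k t ht => by
      rw [norm_mul, norm_mul, norm_pow, norm_pow]
      exact mul_le_mul (pow_le_pow_left₀ (norm_nonneg _) (abs_le.2 ⟨ht.1.le, ht.2.le⟩) _)
        (mul_le_of_le_one_right (abs_nonneg _) (pow_le_one₀ (norm_nonneg _) ((abs_of_nonneg
          (by positivity)).trans_le (by nlinarith [ht.1, ht.2])))) (by positivity) (by positivity))
    (show (0 : ℝ) ∈ Set.Ioo (-2 : ℝ) 2 by norm_num) (by simp) ht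
  simp only [tsum_mul_left] at this
  rw [m t ht]
  exact this.congr_of_eventuallyEq (eventually_of_mem (Ioo_mem_nhds ht.1 ht.2) fun t ht => by
    beta_reduce
    rw [m t ht, ev])

lemma ode {ε : ℝ} (e0 : 0 < ε) (e1 : ε ≤ 1 / 100) : ∃ (e e' e'' : ℝ → ℝ) (c : ℝ),
    (∀ t ∈ Ioo (-2 : ℝ) 2, HasDerivAt e (e' t) t ∧ HasDerivAt e' (e'' t) t) ∧ Continuous e ∧
    Continuous e' ∧ Continuous e'' ∧ e 0 = 0 ∧ ∀ t ∈ Icc (-1 : ℝ) 1, |e t| ≤ ε ^ 2 ∧ |e' t| ≤ 5 * ε ^ 2 ∧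
      |e'' t| ≤ 5 * ε ^ 2 ∧ e (-t) = e t ∧ e' (-t) = -e' t ∧ e'' (-t) = e'' t ∧
      12 * e t + 27 * (1 - t ^ 2) * e'' t - 54 * t * e' t + 60 * ε ^ 2 * t ^ 2 + (6 * e t ^ 2 +
        27 * (1 - t ^ 2) * e t * e'' t - 54 * t * e t * e' t - 81 * t * (1 - t ^ 2) * e' t * e'' t +
          81 * t ^ 2 * e' t ^ 2 - 27 * (1 - t ^ 2) * e' t ^ 2) = c := by
  obtain ⟨y, hy⟩ : ∃ y : ℕ → ℝ, ∀ k, y k = 1 / (4 * (27 * (2 * k + 2) * (2 * k + 3) - 12)) :=
    ⟨_, fun _ => rfl⟩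
  have l : ∀ k : ℕ, (0 : ℝ) < 4 * (27 * (2 * k + 2) * (2 * k + 3) - 12) := fun k => by
    nlinarith [(k.cast_nonneg : (0 : ℝ) ≤ k)]
  have y0 : ∀ k, 0 < y k := fun k => hy k ▸ one_div_pos.2 (l k)
  have yl : ∀ k : ℕ, y k * (4 * (27 * (2 * k + 2) * (2 * k + 3) - 12)) = 1 := fun k => by
    rw [hy, one_div_mul_cancel (l k).ne']
  have b0 : ∀ k, |y k| ≤ 1 / 600 := fun k => by
    rw [abs_of_pos (y0 k)]
    have := mul_nonneg (y0 k).le (k.cast_nonneg : (0 : ℝ) ≤ k)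
    nlinarith [yl k, mul_nonneg this (k.cast_nonneg : (0 : ℝ) ≤ k)]
  have b1 : ∀ k : ℕ, |(2 * k + 2) * y k| ≤ 1 / 108 := fun k => by
    rw [abs_of_pos (by have := y0 k; positivity)]
    have := mul_nonneg (y0 k).le (k.cast_nonneg : (0 : ℝ) ≤ k)
    nlinarith [yl k, mul_nonneg this (k.cast_nonneg : (0 : ℝ) ≤ k), y0 k]
  have b2 : ∀ k : ℕ, |(2 * k + 1) * ((2 * k + 2) * y k)| ≤ 1 / 108 := fun k => by
    rw [abs_of_pos (by have := y0 k; positivity)]
    have := mul_nonneg (y0 k).le (k.cast_nonneg : (0 : ℝ) ≤ k)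
    nlinarith [yl k, mul_nonneg this (k.cast_nonneg : (0 : ℝ) ≤ k), y0 k]
  generalize hz : (fun k : ℕ => (2 * k + 2) * y k) = z
  generalize hw : (fun k : ℕ => (2 * k + 1) * ((2 * k + 2) * y k)) = w
  replace hz : ∀ k : ℕ, (2 * k + 2) * y k = z k := congrFun hz
  replace hw : ∀ k : ℕ, (2 * k + 1) * ((2 * k + 2) * y k) = w k := congrFun hw
  simp only [hw] at b2
  simp only [hz] at b1
  have b3 : ∀ k, |y k| ≤ 1 / 108 := fun k => (b0 k).trans (by norm_num)
  have bb : ∀ u v : ℝ, |u| ≤ 1 / 108 → |v| ≤ 1 / 108 → |u * v| ≤ 1 / 10000 := fun u v hu hv => by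
    rw [abs_mul]
    nlinarith [mul_le_mul hu hv (abs_nonneg _) (by norm_num)]
  obtain ⟨a, h, ha⟩ := fix (θ := fun k => 27 * w (k + 1)) (η := 240 * ε ^ 2)
    (κ := fun p => 108 * (y p.1 * w p.2) - 324 * (z p.1 * w p.2) - 108 * (z p.1 * z p.2))
    (κ' := fun p => 96 * (y p.1 * y p.2) - 432 * (y p.1 * w p.2) - 864 * (y p.1 * z p.2) +
      1296 * (z p.1 * w p.2) + 1728 * (z p.1 * z p.2))
    (fun k => abs_le.2 ⟨by linarith [(abs_le.1 (b2 (k + 1))).1], by linarith [(abs_le.1 (b2 (k + 1))).2]⟩)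
    (fun p => by
      have := abs_le.1 (bb _ _ (b3 p.1) (b2 p.2))
      have := abs_le.1 (bb _ _ (b1 p.1) (b2 p.2))
      have := abs_le.1 (bb _ _ (b1 p.1) (b1 p.2))
      rw [abs_le]
      constructor <;> linarith)
    (fun p => by
      have := abs_le.1 (bb _ _ (b3 p.1) (b2 p.2))
      have := abs_le.1 (bb _ _ (b1 p.1) (b2 p.2))
      have := abs_le.1 (bb _ _ (b1 p.1) (b1 p.2))
      have := abs_le.1 (bb _ _ (b3 p.1) (b3 p.2))
      have := abs_le.1 (bb _ _ (b3 p.1) (b1 p.2))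
      rw [abs_le]
      constructor <;> linarith) (by positivity) (by nlinarith)
  have h0 := h.w b0
  have h1 := h.w b1
  have h2 := h.w b2
  refine ⟨fun t => t ^ (1 + 1) * ev (fun k => y k * a k) (min (t ^ 2 / 4) 1),
    fun t => t ^ (0 + 1) * ev (fun k => z k * a k) (min (t ^ 2 / 4) 1),
    fun t => ev (fun k => w k * a k) (min (t ^ 2 / 4) 1), 27 * (w 0 * a 0), fun t ht => ⟨?_, ?_⟩,
    (continuous_pow _).mul h0.ct, (continuous_pow _).mul h1.ct, h2.ct, by simp, fun t ht => ?_⟩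
  · have e : (fun k : ℕ => (2 * k + 1 + (fun _ : ℕ => (1 : ℝ)) 0) * (y k * a k)) = fun k => z k * a k := by
      ext k
      rw [← hz]
      ring
    have := h0.dr (y := fun _ => 1) (e ▸ h1) 1 (by simp) ht
    rwa [e] at this
  · have e : (fun k : ℕ => (2 * k + 1 + (fun _ : ℕ => (0 : ℝ)) 0) * (z k * a k)) = fun k => w k * a k := by
      ext k
      rw [← hz, ← hw]
      ring
    have := h1.dr (y := fun _ => 0) (e ▸ h2) 0 (by simp) ht
    rwa [e, pow_zero, one_mul] at this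
  have t1 : t ^ 2 ≤ 1 := by nlinarith [ht.1, ht.2]
  simp only [neg_sq, zero_add, pow_one, one_add_one_eq_two, min_eq_left (show t ^ 2 / 4 ≤ 1 by linarith)]
  obtain ⟨σ, hσ⟩ : ∃ σ, t ^ 2 / 4 = σ := ⟨_, rfl⟩
  have s1 : |σ| ≤ 1 := by rw [← hσ, abs_of_nonneg (by positivity)]; linarith
  rw [hσ]
  have c0 := h0.ev_le s1
  have c1 := h1.ev_le s1
  have c2 := h2.ev_le s1
  refine ⟨?_, ?_, by nlinarith, trivial, by ring, trivial, ?_⟩
  · rw [abs_mul, abs_of_nonneg (sq_nonneg t)]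
    nlinarith [abs_nonneg (ev (fun k => y k * a k) σ)]
  · rw [abs_mul]
    nlinarith [abs_nonneg (ev (fun k => z k * a k) σ), abs_le.2 ⟨ht.1, ht.2⟩]
  have d1 := (hasSum_nat_add_iff' 1).2 (h2.hs s1)
  have d2 : ev a σ = 4 * (27 * ev (fun k => w k * a k) σ + 54 * ev (fun k => z k * a k) σ -
      12 * ev (fun k => y k * a k) σ) := (h.hs s1).unique (((((h2.hs s1).mul_left 27).add
    ((h1.hs s1).mul_left 54)).sub ((h0.hs s1).mul_left 12)).mul_left 4 |>.congr_fun fun k => by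
      rw [← hw, ← hz]
      linear_combination (-a k * σ ^ k) * yl k)
  have d3 := ((((h0.pr h2 s1).mul_left 108).sub ((h1.pr h2 s1).mul_left 324)).sub
    ((h1.pr h1 s1).mul_left 108)).mul_left σ
  have d4 := (hasSum_nat_add_iff (f := fun k => σ * (sh (cv (fun p => 96 * (y p.1 * y p.2) -
      432 * (y p.1 * w p.2) - 864 * (y p.1 * z p.2) + 1296 * (z p.1 * w p.2) + 1728 * (z p.1 * z p.2))
        a a) k * σ ^ k)) 1).1 ((((((((h0.pr h0 s1).mul_left 96).sub ((h0.pr h2 s1).mul_left 432)).sub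
    ((h0.pr h1 s1).mul_left 864)).add ((h1.pr h2 s1).mul_left 1296)).add
      ((h1.pr h1 s1).mul_left 1728)).mul_left (σ * σ)).congr_fun fun k => by
        simp only [sh, cv, sum_mul, mul_sum, ← sum_add_distrib, ← sum_sub_distrib]
        exact sum_congr rfl fun p _ => by ring)
  have d5 := ((h.hs s1).mul_left σ).unique ((((d1.mul_left 27).add ((hasSum_single
    (f := fun k => σ * ((Pi.single 0 (240 * ε ^ 2) : ℕ → ℝ) k * σ ^ k)) 0 fun k hk => by
      simp [hk]))).add (d3.add d4)).congr_fun fun k => by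
        conv_lhs => rw [ha k]
        simp only [cv, sum_mul, mul_sum, ← sum_sub_distrib, mul_add, add_mul]
        congr 2
        · ring
        · exact sum_congr rfl fun p _ => by ring)
  simp only [range_one, sum_singleton, pow_zero, mul_one, Pi.single_eq_same, sh, zero_mul, mul_zero,
    add_zero] at d5
  rw [d2] at d5
  generalize ev (fun k => y k * a k) σ = X at *
  generalize ev (fun k => z k * a k) σ = Y at *
  generalize ev (fun k => w k * a k) σ = Z at *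
  subst hσ
  linear_combination -d5

end Pool.Agent.H.MP_17e2c6_gt
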