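import Pool.Agent.H.MP_f6b738_gt.B

namespace Pool.Agent.H.MP_17e2c6_gt

open Set Metric MeasureTheory Pointwise Matrix Pool.Agent.H.MP_f6b738_gt
open scoped RealInnerProductSpace NNReal

lemma d4 (M : Matrix (Fin 4) (Fin 4) ℝ) : M.det = M 0 0 * (M 1 1 * (M 2 2 * (M 3 3) - M 2 3 * (M 3
    2)) - M 1 2 * (M 2 1 * (M 3 3) - M 2 3 * (M 3 1)) + M 1 3 * (M 2 1 * (M 3 2) - M 2 2 * (M 3
    1))) - M 0 1 * (M 1 0 * (M 2 2 * (M 3 3) - M 2 3 * (M 3 2)) - M 1 2 * (M 2 0 * (M 3 3) - M 2 3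
    * (M 3 0)) + M 1 3 * (M 2 0 * (M 3 2) - M 2 2 * (M 3 0))) + M 0 2 * (M 1 0 * (M 2 1 * (M 3 3)
    - M 2 3 * (M 3 1)) - M 1 1 * (M 2 0 * (M 3 3) - M 2 3 * (M 3 0)) + M 1 3 * (M 2 0 * (M 3 1) -
    M 2 1 * (M 3 0))) - M 0 3 * (M 1 0 * (M 2 1 * (M 3 2) - M 2 2 * (M 3 1)) - M 1 1 * (M 2 0 * (M
    3 2) - M 2 2 * (M 3 0)) + M 1 2 * (M 2 0 * (M 3 1) - M 2 1 * (M 3 0))) := by
  simp [det_succ_row_zero (n := 3), det_fin_three, Fin.sum_univ_four, Fin.succAbove]
  ring

noncomputable def s2 (A : Matrix (Fin 5) (Fin 5) ℝ) : ℝ := (A.trace ^ 2 - (A * A).trace) / 2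

noncomputable def s3 (A : Matrix (Fin 5) (Fin 5) ℝ) : ℝ :=
  (((1 : ℝ) • 1 + A).det + ((-1 : ℝ) • 1 + A).det) / 2 - A.trace - A.det

noncomputable def s4 (A : Matrix (Fin 5) (Fin 5) ℝ) : ℝ :=
  (((1 : ℝ) • 1 + A).det - ((-1 : ℝ) • 1 + A).det) / 2 - 1 - s2 A

lemma det5 (A : Matrix (Fin 5) (Fin 5) ℝ) (r : ℝ) : (r • 1 + A).det =
    r ^ 5 + A.trace * r ^ 4 + s2 A * r ^ 3 + s3 A * r ^ 2 + s4 A * r + A.det := by
  simp [s2, s3, s4, trace, mul_apply, det_succ_row_zero (n := 4), d4, Fin.sum_univ_five, Fin.succAbove,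
    one_apply]
  ring

lemma schur {B : Matrix (Fin 5) (Fin 4) ℝ} {n : Fin 5 → ℝ} {A : Matrix (Fin 5) (Fin 5) ℝ} {r : ℝ}
    (hA : A *ᵥ n = 0) (hA' : n ᵥ* A = 0) (hn : n ⬝ᵥ n = 1) (hr : r ≠ 0) (hB : Bᵀ * B = 1) :
    r * (Bᵀ * (A + r • (1 - vecMulVec n n)) * B).det =
      (1 - (n ᵥ* B) ⬝ᵥ (n ᵥ* B)) * (r • 1 + A).det := by
  have g : ∀ (A : Matrix (Fin 5) (Fin 5) ℝ) (r : ℝ), A *ᵥ n = 0 → n ᵥ* A = 0 → r ≠ 0 →
      r * (Bᵀ * (A + r • (1 - vecMulVec n n)) * B).det = ((fromCols B (replicateCol (Fin 1) n)).submatrix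
        finSumFinEquiv id).det ^ 2 * (r • 1 + A).det := fun A r h1 h2 hr => by
    rw [← det_submatrix_equiv_self (finSumFinEquiv (m := 4) (n := 1)) (r • 1 + A), sq,
      mul_right_comm, ← det_transpose (submatrix _ _ id), ← det_mul, det_transpose, ← det_mul,
      transpose_submatrix, submatrix_mul_equiv, submatrix_mul_equiv, submatrix_id_id, transpose_fromCols,
      fromRows_mul, fromRows_mul_fromCols]
    have e : (replicateCol (Fin 1) n)ᵀ * (r • 1 + A) * replicateCol (Fin 1) n = r • 1 := by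
      rw [transpose_replicateCol, ← replicateRow_vecMul, replicateRow_mul_replicateCol]
      ext i j
      simp [vecMul_add, h2, vecMul_smul, hn, Subsingleton.elim i j]
    have : Invertible (r • (1 : Matrix (Fin 1) (Fin 1) ℝ)) :=
      ⟨r⁻¹ • 1, by simp [smul_smul, hr], by simp [smul_smul, hr]⟩
    rw [e, det_fromBlocks₂₂, invOf_eq_right_inv (b := r⁻¹ • 1) (by simp [smul_smul, hr]), Matrix.mul_assoc _ _
      (replicateCol _ n), ← replicateCol_mulVec, transpose_replicateCol, ← replicateRow_vecMul,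
      add_mulVec, vecMul_add, h1, h2, vecMulVec_eq (Fin 1)]
    simp [Matrix.mul_add, Matrix.add_mul, Matrix.mul_sub, Matrix.sub_mul, smul_mulVec, vecMul_smul,
      smul_smul, hr, Matrix.mul_assoc, smul_sub, add_comm, add_sub_assoc, replicateCol_smul,
      replicateRow_smul]
    congr
    all_goals exact Subsingleton.elim _ _
  have := g 0 1 (by simp) (by simp) one_ne_zero
  rw [g A r hA hA' hr]
  congr 1
  simp only [zero_add, one_smul, add_zero, det_one, mul_one, one_mul] at this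
  rw [← this, Matrix.mul_sub, Matrix.sub_mul, Matrix.mul_one, hB, mul_vecMulVec, vecMulVec_mul,
    vecMulVec_eq (Fin 1), det_one_sub_mul_comm, replicateRow_mul_replicateCol, mulVec_transpose]
  simp

abbrev E5 := EuclideanSpace ℝ (Fin 5)

noncomputable def PP (n : E5) : E5 →L[ℝ] E5 := .id ℝ E5 - (innerSL ℝ n).smulRight n

structure Cu (h : E5 → ℝ) (N : E5 → E5) (A : E5 → Matrix (Fin 5) (Fin 5) ℝ) : Prop where
  su : Sup h N
  dr : ∀ n, ‖n‖ = 1 → ∃ D : E5 →L[ℝ] E5, HasFDerivAt N D n ∧ ∀ v, (PP n v + D (PP n v)).ofLp = A n *ᵥ v.ofLp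
  sy : ∀ n, (A n)ᵀ = A n
  ct : Continuous A

variable {h : E5 → ℝ} {N : E5 → E5} {A : E5 → Matrix (Fin 5) (Fin 5) ℝ} {r : ℝ}

lemma inn (x y : E5) : ⟪x, y⟫ = x.ofLp ⬝ᵥ y.ofLp := by
  simp [EuclideanSpace.inner_eq_star_dotProduct, dotProduct_comm]

lemma PPn {n : E5} (hn : ‖n‖ = 1) : PP n n = 0 := by simp [PP, hn]

lemma Cu.ker (H : Cu h N A) {n : E5} (hn : ‖n‖ = 1) : A n *ᵥ n.ofLp = 0 ∧ n.ofLp ᵥ* A n = 0 := by
  obtain ⟨D, -, k⟩ := H.dr n hn
  have := (k n).symm
  rw [PPn hn, map_zero, add_zero] at this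
  exact ⟨this, by rw [← H.sy, vecMul_transpose, this]; rfl⟩

lemma Cu.psd (H : Cu h N A) {n : E5} (hn : ‖n‖ = 1) (hr : 0 ≤ r) : 0 ≤ (r • 1 + A n).det := by
  obtain ⟨D, d, k⟩ := H.dr n hn
  obtain ⟨C, c1, c2⟩ := H.su.lip
  have n0 : n ≠ 0 := by rintro rfl; simp at hn
  have b := ((hasFDerivAt_norm n0).smul (((nr_unit hn).symm ▸ d).comp n
    (hasFDerivAt_nr n0))).le_of_lipschitz c2
  refine PosSemidef.det_nonneg (.add (.smul .one hr) (.of_dotProduct_mulVec_nonneg (H.sy n) fun x => ?_))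
  have a1 : ⟪n, PP n (WithLp.toLp 2 x)⟫ = 0 := by simp [PP, inner_sub_right, inner_smul_right, hn]
  generalize hw : PP n (WithLp.toLp 2 x) = w at a1
  have a2 : PP n w = w := by simp [PP, a1]
  have a3 := ContinuousLinearMap.le_of_opNorm_le _ b w
  have a4 : x = w.ofLp + ⟪n, WithLp.toLp 2 x⟫ • n.ofLp := by simp [← hw, PP]
  have a5 := k w
  have a6 : A n *ᵥ x = A n *ᵥ w.ofLp := by rw [← a5, a2, ← hw, ← k]
  simp only [nr_unit hn, hn, inv_one, one_smul, _root_.add_apply, ContinuousLinearMap.comp_apply,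
    ContinuousLinearMap.smulRight_apply, innerSL_apply_apply, a1, zero_smul, add_zero,
    Function.comp_apply] at a3
  rw [show (ContinuousLinearMap.id ℝ E5 - (innerSL ℝ n).smulRight n) w = w from a2] at a3
  rw [star_trivial, a6, a4, add_dotProduct, smul_dotProduct, dotProduct_mulVec n.ofLp, (H.ker hn).2,
    zero_dotProduct, smul_zero, add_zero, ← a5, ← inn, a2, inner_add_right, real_inner_self_eq_norm_sq]
  have c3 : (C : ℝ) < 1 := c1
  nlinarith [(abs_le.1 (abs_real_inner_le_norm w (D w))).1, norm_nonneg w,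
    mul_le_mul_of_nonneg_left a3 (norm_nonneg w)]

variable {W : Type*} [NormedAddCommGroup W] [InnerProductSpace ℝ W] [FiniteDimensional ℝ W]
  [MeasurableSpace W] [BorelSpace W]

lemma Cu.cauchy (H : Cu h N A) (b : OrthonormalBasis (Fin 4) ℝ W) (T : W →ₗᵢ[ℝ] E5) {u : E5}
    (hu : ‖u‖ = 1) (hT : ∀ w, ⟪u, T w⟫ = 0) (hr : 0 < r) :
    (volume (adj T '' body h + closedBall 0 r)).toReal =
      ∫ w, ((1 + ‖w‖ ^ 2) ^ 3)⁻¹ * ((r • 1 + A (nr (T w + u))).det / r) := by
  have S := H.su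
  have y1 : ∀ w, ⟪u, T w + u⟫ = 1 := fun w => by
    rw [inner_add_right, hT, real_inner_self_eq_norm_sq, hu]; norm_num
  have y0 : ∀ w, T w + u ≠ 0 := fun w k => by simpa [k] using y1 w
  have y2 : ∀ w, ‖T w + u‖ ^ 2 = 1 + ‖w‖ ^ 2 := fun w => by
    rw [norm_add_sq_real, real_inner_comm, hT, T.norm_map, hu]; ring
  obtain ⟨Γ, hΓ⟩ : ∃ Γ : E5 → E5, ∀ n, Γ n = n + N n + r • n := ⟨_, fun _ => rfl⟩
  have d1 : ∀ y, y ≠ 0 → HasFDerivAt (fun y => h y + r * ‖y‖) (innerSL ℝ (Γ (nr y))) y := fun y hy =>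
    ((S.der y hy).add ((hasFDerivAt_norm hy).const_mul r)).congr_fderiv (by simp [hΓ])
  have f1 : ∀ y, y ≠ 0 → ∀ w, ⟪Γ (nr y), w⟫ ≤ h w + r * ‖w‖ := fun y hy w => by
    have := real_inner_le_norm (nr y) w
    rw [norm_nr hy] at this
    rw [hΓ, inner_add_left, real_inner_smul_left]
    nlinarith [S.grad_mem (norm_nr hy) w]
  have f2 : ∀ y, y ≠ 0 → ⟪Γ (nr y), y⟫ = h y + r * ‖y‖ := fun y hy => by
    have h1 := (d1 y hy).comp_hasDerivAt_of_eq (1 : ℝ) ((hasDerivAt_id (1 : ℝ)).smul_const y) (by simp)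
    have h2 : HasDerivAt ((fun y => h y + r * ‖y‖) ∘ fun t : ℝ => id t • y) (h y + r * ‖y‖) 1 := by
      refine (hasDerivAt_mul_const _).congr_of_eventuallyEq ?_
      filter_upwards [lt_mem_nhds one_pos] with t ht
      simp only [Function.comp, id, S.hom t ht, norm_smul, Real.norm_of_nonneg ht.le]
      ring
    simpa using h1.unique h2
  have cv : Convex ℝ (adj T '' body h + closedBall 0 r) :=
    ((Sup.convex h).linear_image (adj T).toLinearMap).add (convex_closedBall _ _)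
  choose! D D1 D2 using H.dr
  have I := integral_image_eq_integral_abs_det_fderiv_smul volume (s := univ)
    (f := fun w => adj T (Γ (nr (T w + u)))) (f' := fun w => ‖T w + u‖⁻¹ • (adj T ∘L (((1 + r) •
      ContinuousLinearMap.id ℝ E5 + D (nr (T w + u))) ∘L PP (nr (T w + u))) ∘L T.toContinuousLinearMap))
    MeasurableSet.univ (fun w _ => by
      have a := (hasFDerivAt_nr (y0 w)).comp w (T.toContinuousLinearMap.hasFDerivAt.add_const u)
      simp only [hΓ]
      refine (((adj T).hasFDerivAt.comp w ((a.add ((D1 _ (norm_nr (y0 w))).comp w a)).add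
        (a.const_smul r))).congr_fderiv ?_).hasFDerivWithinAt
      ext v
      simp only [PP, ContinuousLinearMap.comp_apply, _root_.add_apply, _root_.smul_apply, map_add, map_smul,
        ContinuousLinearMap.id_apply]
      module) (fun w _ w' _ e => by
      have a : ∀ w w', adj T (Γ (nr (T w + u))) = adj T (Γ (nr (T w' + u))) →
          ⟪Γ (nr (T w + u)), T w + u⟫ - ⟪Γ (nr (T w + u)), T w' + u⟫ =
            ⟪Γ (nr (T w' + u)), T w + u⟫ - ⟪Γ (nr (T w' + u)), T w' + u⟫ := fun w w' e => by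
        rw [← inner_sub_right, ← inner_sub_right, add_sub_add_right_eq_sub, ← map_sub, ← adj_inner,
          ← adj_inner, e]
      have a1 := a w w' e
      have a2 := IsLocalMin.hasFDerivAt_eq_zero (Filter.Eventually.of_forall fun y => by
        have := f1 _ (y0 w') y
        simp only [innerSL_apply_apply]
        linarith [f1 _ (y0 w') (T w + u), f1 _ (y0 w) (T w' + u), f2 _ (y0 w), f2 _ (y0 w')])
        ((d1 _ (y0 w)).fun_sub (innerSL ℝ (Γ (nr (T w' + u)))).hasFDerivAt)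
      obtain ⟨C, c1, c2⟩ := S.lip
      have a3 : nr (T w + u) = nr (T w' + u) := inj c1 c2 hr.le (by
        have := fun w => Nm_smul N zero_le_one (norm_nr (y0 w))
        simp only [one_smul] at this
        simp only [this, ← hΓ]
        exact innerSL_inj.1 (sub_eq_zero.1 a2))
      have a4 := congrArg (fun x => ⟪u, x⟫) a3
      simp only [nr, real_inner_smul_right, y1, mul_one, _root_.inv_inj] at a4
      rw [nr, nr, a4] at a3
      exact T.injective (add_right_cancel (smul_right_injective _ (inv_ne_zero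
        (norm_ne_zero_iff.2 (y0 w'))) a3))) fun _ => (1 : ℝ)
  rw [setIntegral_congr_set (t := adj T '' body h + closedBall 0 r)] at I
  · simp only [integral_const, MeasurableSet.univ, measureReal_restrict_apply, univ_inter,
      smul_eq_mul, mul_one, Measure.restrict_univ] at I
    rw [← measureReal_def, I]
    refine integral_congr_ae (Filter.Eventually.of_forall fun w => ?_)
    have n1 := norm_nr (y0 w)
    have k := schur (B := Matrix.of fun i j => T (b j) i) (H.ker n1).1 (H.ker n1).2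
      (by rw [← inn, real_inner_self_eq_norm_sq, n1]; norm_num) hr.ne' (by
        ext i j
        rw [one_apply, ← orthonormal_iff_ite.1 b.orthonormal, ← T.inner_map_map, inn]
        rfl)
    have p : 0 < ‖T w + u‖ := norm_pos_iff.2 (y0 w)
    have k1 : (nr (T w + u)).ofLp ᵥ* (Matrix.of fun i j => T (b j) i) = fun j => ‖T w + u‖⁻¹ * ⟪w, b j⟫ := by
      ext j
      rw [← T.inner_map_map, ← add_zero ⟪T w, _⟫, ← hT (b j), ← inner_add_left, ← real_inner_smul_left, inn]
      rfl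
    have k2 : (fun j => ‖T w + u‖⁻¹ * ⟪w, b j⟫) ⬝ᵥ (fun j => ‖T w + u‖⁻¹ * ⟪w, b j⟫) =
        ‖T w + u‖⁻¹ ^ 2 * ‖w‖ ^ 2 := by
      rw [← real_inner_self_eq_norm_sq w, ← b.sum_inner_mul_inner, Finset.mul_sum]
      exact Finset.sum_congr rfl fun j _ => by rw [real_inner_comm w]; ring
    rw [k1, k2] at k
    beta_reduce
    rw [ContinuousLinearMap.det, ContinuousLinearMap.toLinearMap_smul, LinearMap.det_smul,
      Module.finrank_eq_card_basis b.toBasis, ← LinearMap.det_toMatrix b.toBasis,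
      show LinearMap.toMatrix b.toBasis b.toBasis _ = _ from ?_, (eq_inv_mul_iff_mul_eq₀ hr.ne').2 k]
    · have e : ‖T w + u‖⁻¹ ^ Fintype.card (Fin 4) * (r⁻¹ * ((1 - ‖T w + u‖⁻¹ ^ 2 * ‖w‖ ^ 2) *
          (r • 1 + A (nr (T w + u))).det)) = ((1 + ‖w‖ ^ 2) ^ 3)⁻¹ *
            ((r • 1 + A (nr (T w + u))).det / r) := by
        rw [Fintype.card_fin, show ‖w‖ ^ 2 = ‖T w + u‖ ^ 2 - 1 by linarith [y2 w]]
        field_simp
        ring
      rw [e, abs_of_nonneg (mul_nonneg (by positivity) (div_nonneg (H.psd n1 hr.le) hr.le))]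
    ext i j
    rw [Matrix.mul_assoc, LinearMap.toMatrix_apply]
    change b.repr (adj T ((1 + r) • PP _ (T (b j)) + D _ (PP _ (T (b j))))) i =
      (T (b i)).ofLp ⬝ᵥ _ *ᵥ (T (b j)).ofLp
    rw [b.repr_apply_apply, real_inner_comm, adj_inner, real_inner_comm, add_mulVec, ← D2 _ n1, inn,
      smul_mulVec, show (1 - vecMulVec (nr (T w + u)).ofLp (nr (T w + u)).ofLp) *ᵥ (T (b j)).ofLp =
        (PP (nr (T w + u)) (T (b j))).ofLp by simp [PP, sub_mulVec, vecMulVec_mulVec, inn]]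
    congr 1
    simp only [WithLp.ofLp_add, WithLp.ofLp_smul]
    module
  refine (HasSubset.Subset.eventuallyLE ?_).antisymm ((interior_ae_eq_of_null_frontier
    (cv.addHaar_frontier _)).symm.le.trans (HasSubset.Subset.eventuallyLE fun x hx => ?_))
  · rintro _ ⟨w, -, rfl⟩
    refine ⟨_, ⟨_, S.grad_mem (norm_nr (y0 w)), rfl⟩, r • adj T (nr (T w + u)), ?_, by simp [hΓ]⟩
    rw [mem_closedBall_zero_iff, norm_smul, Real.norm_of_nonneg hr.le]
    exact mul_le_of_le_one_right hr.le ((adj_norm T _).trans (norm_nr (y0 w)).le)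
  obtain ⟨η, η0, hη⟩ := nhds_basis_closedBall.mem_iff.1 (mem_interior_iff_mem_nhds.1 hx)
  have d2 : ∀ w, HasFDerivAt (fun w => h (T w + u) + r * ‖T w + u‖ - ⟪x, w⟫) _ w := fun w =>
    ((d1 _ (y0 w)).comp w (T.toContinuousLinearMap.hasFDerivAt.add_const u)).fun_sub
      (innerSL ℝ x).hasFDerivAt
  obtain ⟨w, hw⟩ := (continuous_iff_continuousAt.2 fun w => (d2 w).continuousAt).exists_forall_le
    (Filter.tendsto_atTop_mono' _ ((Filter.eventually_of_mem (isCompact_singleton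
      (x := (0 : W))).compl_mem_cocompact fun w hw => show η * ‖w‖ + -(h (-u) + r) ≤ _ from by
        have t0 : T w ≠ 0 := fun k => hw (T.injective (k.trans (map_zero T).symm))
        obtain ⟨_, ⟨k, k1, rfl⟩, z, z1, e⟩ := hη (show x + η • nr w ∈ _ by
          simp [norm_smul, norm_nr hw, η0.le, abs_of_pos η0])
        have e1 := congrArg (fun x => ⟪x, w⟫) e
        have e2 := real_inner_le_norm z w
        have e3 := f1 _ t0 (T w + u)
        have e4 := f1 _ t0 (-u)
        have e5 : ⟪nr w, w⟫ = ‖w‖ := by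
          rw [nr, real_inner_smul_left, real_inner_self_eq_norm_sq]
          field_simp
        simp only [inner_add_left, adj_inner, real_inner_smul_left, e5] at e1
        rw [inner_add_right, f2 _ t0, T.norm_map] at e3
        rw [inner_neg_right, norm_neg, hu] at e4
        nlinarith [k1 (T w), mem_closedBall_zero_iff.1 z1, norm_nonneg w]))
      (Filter.tendsto_atTop_add_const_right _ _ (Filter.Tendsto.const_mul_atTop η0
        tendsto_norm_cocompact_atTop)))
  refine ⟨w, trivial, ext_inner_right ℝ fun v => ?_⟩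
  have := congrArg (fun φ : W →L[ℝ] ℝ => φ v) (IsLocalMin.hasFDerivAt_eq_zero
    (Filter.Eventually.of_forall hw) (d2 w))
  rw [adj_inner]
  simpa [sub_eq_zero] using this

lemma Cu.girth (H : Cu h N A) {c : ℝ} (hc : ∀ n, ‖n‖ = 1 → s2 (A n) + s2 (A (-n)) = 2 * c)
    (b : OrthonormalBasis (Fin 4) ℝ W) (T : W →ₗᵢ[ℝ] E5) {u : E5} (hu : ‖u‖ = 1)
    (hT : ∀ w, ⟪u, T w⟫ = 0) : ∃ p : Polynomial ℝ, (∀ r > 0, p.eval r =
      (volume (adj T '' body h + closedBall 0 r)).toReal) ∧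
        p.coeff 2 = c * ∫ w : EuclideanSpace ℝ (Fin 4), ((1 + ‖w‖ ^ 2) ^ 3)⁻¹ := by
  have y0 : ∀ w, T w + u ≠ 0 := fun w k => by
    have := hT w
    rw [eq_neg_of_add_eq_zero_left k, inner_neg_right, real_inner_self_eq_norm_sq, hu] at this
    simp at this
  have i0 : Integrable fun w : W => ((1 + ‖w‖ ^ 2) ^ 3)⁻¹ :=
    (integrable_rpow_neg_one_add_norm_sq (r := 6) (by
      rw [Module.finrank_eq_card_basis b.toBasis]; norm_num)).congr (Filter.Eventually.of_forall fun w => by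
        beta_reduce
        rw [show -(6 : ℝ) / 2 = -(3 : ℕ) by norm_num, Real.rpow_neg (by positivity), Real.rpow_natCast])
  have cn : Continuous fun w => nr (T w + u) := continuous_iff_continuousAt.2 fun w =>
    (hasFDerivAt_nr (y0 w)).continuousAt.comp (f := fun w => T w + u) (by fun_prop)
  have i1 : ∀ φ : E5 → ℝ, Continuous φ →
      Integrable fun w : W => ((1 + ‖w‖ ^ 2) ^ 3)⁻¹ * φ (nr (T w + u)) := fun φ hφ => by
    obtain ⟨B, hB⟩ := (isCompact_closedBall (0 : E5) 1).exists_bound_of_continuousOn hφ.continuousOn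
    exact i0.mul_bdd (hφ.comp cn).aestronglyMeasurable (Filter.Eventually.of_forall fun w =>
      hB _ (mem_closedBall_zero_iff.2 (norm_nr_le _)))
  have c0 := H.ct
  have c1 : Continuous fun n => (A n).trace := c0.matrix_trace
  have c2 : Continuous fun n => s2 (A n) := ((c1.pow 2).sub (c0.matrix_mul c0).matrix_trace).div_const _
  have c5 : ∀ t : ℝ, Continuous fun n => (t • 1 + A n).det := fun t => (continuous_const.add c0).matrix_det
  have c3 : Continuous fun n => s3 (A n) := ((((c5 _).add (c5 _)).div_const _).sub c1).sub c0.matrix_det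
  have c4 : Continuous fun n => s4 (A n) := ((((c5 _).sub (c5 _)).div_const _).sub continuous_const).sub c2
  obtain ⟨J, hJ⟩ : ∃ J : (E5 → ℝ) → ℝ, ∀ φ, J φ =
    ∫ w : W, ((1 + ‖w‖ ^ 2) ^ 3)⁻¹ * (φ (nr (T w + u)) + φ (-nr (T w + u))) / 2 := ⟨_, fun _ => rfl⟩
  have i2 : ∀ φ : E5 → ℝ, Continuous φ → ∀ t : ℝ, Integrable fun w : W =>
      ((1 + ‖w‖ ^ 2) ^ 3)⁻¹ * (φ (nr (T w + u)) + φ (-nr (T w + u))) / 2 * t := fun φ hφ t =>
    ((i1 (fun n => φ n + φ (-n)) (by fun_prop)).div_const _).mul_const _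
  refine ⟨.monomial 4 (J 1) + .monomial 3 (J fun n => (A n).trace) + .monomial 2 (J fun n => s2 (A n)) +
    .monomial 1 (J fun n => s3 (A n)) + .monomial 0 (J fun n => s4 (A n)), fun r hr => ?_, ?_⟩
  · have a1 := H.cauchy b T hu hT hr
    have a2 := H.cauchy b T (u := -u) (by simpa) (by simpa) hr
    rw [← integral_neg_eq_self] at a2
    simp only [norm_neg, map_neg, ← neg_add, show ∀ y : E5, nr (-y) = -nr y from fun y => by simp [nr]] at a2
    have a3 := integral_add (i1 _ ((c5 r).div_const r)) (i1 _ (((c5 r).div_const r).comp continuous_neg))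
    simp only [Function.comp, ← a1, ← a2] at a3
    simp only [Polynomial.eval_add, Polynomial.eval_monomial, hJ, ← integral_mul_const]
    rw [← integral_add' (i2 _ continuous_one _) (i2 _ c1 _), ← integral_add' ((i2 _ continuous_one _).add
      (i2 _ c1 _)) (i2 _ c2 _), ← integral_add' (((i2 _ continuous_one _).add (i2 _ c1 _)).add
        (i2 _ c2 _)) (i2 _ c3 _), ← integral_add' ((((i2 _ continuous_one _).add (i2 _ c1 _)).add
          (i2 _ c2 _)).add (i2 _ c3 _)) (i2 _ c4 _), ← add_self_div_two (ENNReal.toReal _), ← a3,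
      ← integral_div]
    refine integral_congr_ae (Filter.Eventually.of_forall fun w => ?_)
    have z : ∀ n, ‖n‖ = 1 → (A n).det = 0 := fun n hn => exists_mulVec_eq_zero_iff.1
      ⟨n.ofLp, fun k => by simp [show n = 0 from by ext i; simpa using congrFun k i] at hn, (H.ker hn).1⟩
    simp only [det5, Pi.one_apply, Pi.add_apply, z _ (norm_nr (y0 w)), z _ ((norm_neg _).trans (norm_nr (y0 w)))]
    field_simp
    ring
  · simp only [Polynomial.coeff_add, Polynomial.coeff_monomial, hJ, hc _ (norm_nr (y0 _))]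
    rw [← b.repr.measurePreserving.integral_comp b.repr.toHomeomorph.measurableEmbedding,
      ← integral_const_mul]
    simp [mul_comm, mul_div_assoc]

end Pool.Agent.H.MP_17e2c6_gt
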