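import Pool.Agent.H.MP_17e2c6_gt.A
import Pool.Agent.H.MP_17e2c6_gt.B

namespace Pool.Agent.H.MP_17e2c6_gt

open Set Metric MeasureTheory Pointwise Matrix Pool.Agent.H.MP_f6b738_gt
open scoped RealInnerProductSpace NNReal

noncomputable def Bm (x : Fin 5 → ℝ) : Matrix (Fin 5) (Fin 5) ℝ :=
  !![x 0, -x 1, -x 2, x 3 / 2, x 4 / 2;
    -x 1, -x 0, 0, -(√3 * x 3) / 2, √3 * x 4 / 2;
    -x 2, 0, -x 0, √3 * x 4 / 2, √3 * x 3 / 2;
    x 3 / 2, -(√3 * x 3) / 2, √3 * x 4 / 2, x 0 / 2 - √3 * x 1 / 2, √3 * x 2 / 2;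
    x 4 / 2, √3 * x 4 / 2, √3 * x 3 / 2, √3 * x 2 / 2, x 0 / 2 + √3 * x 1 / 2]

lemma B1 (x y : Fin 5 → ℝ) : Bm x *ᵥ y = Bm y *ᵥ x := by
  ext i
  fin_cases i <;> simp [Bm, mulVec, dotProduct, Fin.sum_univ_five] <;> ring

lemma B2 (x : Fin 5 → ℝ) : (Bm x)ᵀ = Bm x := by
  ext i j
  fin_cases i <;> fin_cases j <;> rfl

lemma B3 (x : Fin 5 → ℝ) : (Bm x).trace = 0 := by
  simp [Bm, trace, Fin.sum_univ_five]
  ring

lemma q3 : √3 ^ 2 = 3 := Real.sq_sqrt (by norm_num)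

lemma B4 (x : Fin 5 → ℝ) : (Bm x * Bm x).trace = 7 / 2 * (x ⬝ᵥ x) := by
  simp [Bm, trace, dotProduct, Fin.sum_univ_five]
  linear_combination (x 1 ^ 2 / 2 + x 2 ^ 2 / 2 + x 3 ^ 2 + x 4 ^ 2) * q3

lemma B5 (x : Fin 5 → ℝ) : Bm x *ᵥ (Bm x *ᵥ x) = (x ⬝ᵥ x) • x := by
  ext i
  fin_cases i <;> simp [Bm, mulVec, dotProduct, Fin.sum_univ_five]
  · ring
  · linear_combination (x 1 * (x 3 ^ 2 + x 4 ^ 2) / 2) * q3
  · linear_combination (x 2 * (x 3 ^ 2 + x 4 ^ 2) / 2) * q3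
  · linear_combination (x 3 * (x 3 ^ 2 + x 4 ^ 2) / 4 + x 3 * (x 1 ^ 2 + x 2 ^ 2) / 2) * q3
  · linear_combination (x 4 * (x 3 ^ 2 + x 4 ^ 2) / 4 + x 4 * (x 1 ^ 2 + x 2 ^ 2) / 2) * q3

noncomputable def β : E5 →L[ℝ] E5 →L[ℝ] E5 := LinearMap.toContinuousLinearMap
  (LinearMap.toContinuousLinearMap.toLinearMap ∘ₗ LinearMap.mk₂ ℝ
    (fun x y : E5 => (WithLp.toLp 2 (Bm x.ofLp *ᵥ y.ofLp) : E5))
    (fun x x' y => by simp [B1 _ y.ofLp, mulVec_add]) (fun c x y => by simp [B1 _ y.ofLp, mulVec_smul])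
    (fun x y y' => by simp [mulVec_add]) fun c x y => by simp [mulVec_smul])

lemma βa (x y : E5) : (β x y).ofLp = Bm x.ofLp *ᵥ y.ofLp := rfl

lemma β1 (x y : E5) : β x y = β y x := congrArg (WithLp.toLp 2) (B1 _ _)

lemma β2 (x y z : E5) : ⟪β x y, z⟫ = ⟪β x z, y⟫ := by
  rw [inn, inn, βa, βa, dotProduct_comm, dotProduct_mulVec, ← mulVec_transpose, B2]

lemma β3 (x : E5) : ‖β x x‖ = ‖x‖ ^ 2 := by
  rw [← sq_eq_sq₀ (norm_nonneg _) (sq_nonneg _), ← real_inner_self_eq_norm_sq, β2, inn, βa, βa, B5,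
    smul_dotProduct, ← inn, real_inner_self_eq_norm_sq, smul_eq_mul, sq (_ ^ 2)]

noncomputable def τ (x : E5) : ℝ := ⟪β x x, x⟫

lemma τb {x : E5} (hx : ‖x‖ ≤ 1) : ‖β x x‖ ≤ 1 ∧ |τ x| ≤ 1 := by
  have := β3 x ▸ pow_le_one₀ (n := 2) (norm_nonneg x) hx
  exact ⟨this, (abs_real_inner_le_norm _ _).trans (mul_le_one₀ this (norm_nonneg _) hx)⟩

lemma md (x : E5) : HasFDerivAt (fun x => β x x) ((2 : ℝ) • β x) x :=
  (β.hasFDerivAt.clm_apply (hasFDerivAt_id x)).congr_fderiv (by ext1 v; simp [β1 v x, two_smul])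

lemma τd (x : E5) : HasFDerivAt τ ((3 : ℝ) • innerSL ℝ (β x x)) x :=
  ((md x).inner ℝ (hasFDerivAt_id x)).congr_fderiv (by
    ext v
    simp [real_inner_smul_left, β2 x v x]
    ring)

noncomputable def hh (G : ℝ → ℝ) (y : E5) : ℝ := ‖y‖ * (1 + G (τ (nr y)))

noncomputable def NN (G G' : ℝ → ℝ) (x : E5) : E5 :=
  G (τ x) • x + G' (τ x) • ((3 : ℝ) • β x x - (3 * τ x) • x)

noncomputable def Am (a b p q c : ℝ) (B : Matrix (Fin 5) (Fin 5) ℝ) (n m : Fin 5 → ℝ) :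
    Matrix (Fin 5) (Fin 5) ℝ := a • 1 + b • B + p • vecMulVec n n + q • (vecMulVec n m + vecMulVec m n) +
      c • vecMulVec m m

noncomputable def AA (G G' G'' : ℝ → ℝ) (n : E5) : Matrix (Fin 5) (Fin 5) ℝ :=
  Am (1 + G (τ n) - 3 * τ n * G' (τ n)) (6 * G' (τ n))
    (-(1 + G (τ n)) + 9 * τ n * G' (τ n) + 9 * G'' (τ n) * τ n ^ 2) (-6 * G' (τ n) - 9 * G'' (τ n) * τ n)
    (9 * G'' (τ n)) (Bm n.ofLp) n.ofLp (β n n).ofLp

lemma trA (a b p q c : ℝ) (B : Matrix (Fin 5) (Fin 5) ℝ) (n m : Fin 5 → ℝ) :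
    (Am a b p q c B n m).trace = 5 * a + b * B.trace + p * (n ⬝ᵥ n) + 2 * q * (m ⬝ᵥ n) + c * (m ⬝ᵥ m) ∧
    (Am a b p q c B n m * Am a b p q c B n m).trace = 5 * a ^ 2 + b ^ 2 * (B * B).trace +
      2 * a * b * B.trace + 2 * a * (p * (n ⬝ᵥ n) + 2 * q * (m ⬝ᵥ n) + c * (m ⬝ᵥ m)) +
      2 * b * (p * (n ⬝ᵥ B *ᵥ n) + q * (n ⬝ᵥ B *ᵥ m + m ⬝ᵥ B *ᵥ n) + c * (m ⬝ᵥ B *ᵥ m)) +
      p ^ 2 * (n ⬝ᵥ n) ^ 2 + 2 * q ^ 2 * ((n ⬝ᵥ n) * (m ⬝ᵥ m) + (m ⬝ᵥ n) ^ 2) + c ^ 2 * (m ⬝ᵥ m) ^ 2 +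
      4 * p * q * (n ⬝ᵥ n) * (m ⬝ᵥ n) + 2 * p * c * (m ⬝ᵥ n) ^ 2 + 4 * q * c * (m ⬝ᵥ n) * (m ⬝ᵥ m) := by
  constructor <;> simp [Am, trace, mul_apply, vecMulVec_apply, dotProduct, mulVec, Fin.sum_univ_five,
    one_apply] <;> ring

variable {G G' G'' : ℝ → ℝ}

lemma s2A {n : E5} (hn : ‖n‖ = 1) : s2 (AA G G' G'' n) = 6 * (1 + G (τ n)) ^ 2 +
    27 * (1 - τ n ^ 2) * (1 + G (τ n)) * G'' (τ n) - 54 * τ n * (1 + G (τ n)) * G' (τ n) -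
      81 * τ n * (1 - τ n ^ 2) * G' (τ n) * G'' (τ n) + 81 * τ n ^ 2 * G' (τ n) ^ 2 -
        27 * (1 - τ n ^ 2) * G' (τ n) ^ 2 := by
  have a1 : n.ofLp ⬝ᵥ n.ofLp = 1 := by rw [← inn, real_inner_self_eq_norm_sq, hn, one_pow]
  have a2 : (β n n).ofLp ⬝ᵥ (β n n).ofLp = 1 := by
    rw [← inn, real_inner_self_eq_norm_sq, β3, hn]; norm_num
  have a3 : (β n n).ofLp ⬝ᵥ n.ofLp = τ n := (inn _ _).symm
  have a4 : Bm n.ofLp *ᵥ (β n n).ofLp = n.ofLp := by rw [βa, B5, a1, one_smul]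
  rw [s2, AA, (trA ..).1, (trA ..).2, B3, B4, a4, ← βa, dotProduct_comm n.ofLp (β n n).ofLp, a1, a2, a3]
  ring

lemma lip3 {N : E5 → E5} {C : ℝ≥0} (hC : LipschitzOnWith C N (closedBall 0 1)) (h0 : N 0 = 0) :
    LipschitzWith (3 * C) (Nm N) := by
  refine LipschitzWith.of_dist_le_mul fun x y => ?_
  have m : ∀ y : E5, nr y ∈ closedBall (0 : E5) 1 := fun y => by simpa using norm_nr_le y
  have e : Nm N x - Nm N y = ‖x‖ • (N (nr x) - N (nr y)) + (‖x‖ - ‖y‖) • N (nr y) := by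
    simp only [Nm]
    module
  have e2 : ‖x‖ • (nr x - nr y) = (x - y) - (‖x‖ - ‖y‖) • nr y := by
    rw [smul_sub, sub_smul, smul_nr, smul_nr]
    abel
  have h1 := hC.dist_le_mul _ (m x) _ (m y)
  have h7 := hC.dist_le_mul _ (m y) 0 (by simp)
  have h2 := abs_norm_sub_norm_le x y
  have h3 : ‖x‖ * ‖nr x - nr y‖ ≤ 2 * ‖x - y‖ := by
    rw [← norm_norm x, ← norm_smul, e2]
    refine (norm_sub_le _ _).trans ?_
    rw [norm_smul, Real.norm_eq_abs]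
    nlinarith [norm_nr_le y, abs_nonneg (‖x‖ - ‖y‖)]
  simp only [dist_eq_norm, h0, sub_zero] at h1 h7 ⊢
  rw [e]
  refine (norm_add_le _ _).trans ?_
  rw [norm_smul, norm_smul, norm_norm, Real.norm_eq_abs]
  have h4 := mul_le_mul_of_nonneg_left h1 (norm_nonneg x)
  have h5 := mul_le_mul h2 (h7.trans (mul_le_of_le_one_right C.2 (norm_nr_le y))) (norm_nonneg _)
    (norm_nonneg _)
  have h6 := mul_le_mul_of_nonneg_left h3 C.2
  change _ ≤ (3 * (C : ℝ)) * _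
  change (C : ℝ) * _ ≤ (C : ℝ) * _ at h6
  change _ ≤ _ * (C : ℝ) at h5
  nlinarith

lemma Nd (hG : ∀ t ∈ Ioo (-2 : ℝ) 2, HasDerivAt G (G' t) t ∧ HasDerivAt G' (G'' t) t) {x : E5}
    (hx : ‖x‖ ≤ 1) : ∃ D : E5 →L[ℝ] E5, HasFDerivAt (NN G G') D x ∧ ∀ v, D v =
      (G (τ x) - 3 * τ x * G' (τ x)) • v + (6 * G' (τ x)) • β x v + ⟪β x x, v⟫ •
        ((-6 * G' (τ x) - 9 * G'' (τ x) * τ x) • x + (9 * G'' (τ x)) • β x x) := by
  have := abs_le.1 (τb hx).2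
  obtain ⟨g1, g2⟩ := hG (τ x) ⟨by linarith, by linarith⟩
  refine ⟨_, ((g1.comp_hasFDerivAt x (τd x)).smul (hasFDerivAt_id x)).add ((g2.comp_hasFDerivAt x
    (τd x)).smul (((md x).const_smul (3 : ℝ)).sub (((τd x).const_mul 3).smul (hasFDerivAt_id x)))),
    fun v => ?_⟩
  simp only [_root_.add_apply, _root_.sub_apply, _root_.smul_apply, ContinuousLinearMap.id_apply,
    ContinuousLinearMap.smulRight_apply, innerSL_apply_apply, Function.comp_apply, id, smul_eq_mul,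
    Pi.sub_apply, Pi.smul_apply, Pi.smul_apply']
  module

lemma cuG : ∃ δ > 0, ∀ G G' G'' : ℝ → ℝ, (∀ t ∈ Ioo (-2 : ℝ) 2, HasDerivAt G (G' t) t ∧
    HasDerivAt G' (G'' t) t) → Continuous G → Continuous G' → Continuous G'' → (∀ t ∈ Icc (-1 : ℝ) 1,
      |G t| ≤ δ ∧ |G' t| ≤ δ ∧ |G'' t| ≤ δ) → Cu (hh G) (NN G G') (AA G G' G'') := by
  refine ⟨1 / (4 * (28 + 6 * ‖β‖)), by positivity, fun G G' G'' hG c0 c1 c2 hb => ⟨⟨fun t ht y => ?_,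
    fun y hy => ?_, 3 * (1 / 4), by norm_num, lip3 ?_ (by simp [NN])⟩, fun n hn => ?_, fun n => ?_, ?_⟩⟩
  · rw [hh, hh, nr_smul ht, norm_smul, Real.norm_of_nonneg ht.le, mul_assoc]
  · have := abs_le.1 (τb (norm_nr_le y)).2
    refine ((hasFDerivAt_norm hy).mul (((hG (τ (nr y)) ⟨by linarith, by linarith⟩).1.comp_hasFDerivAt
      (f := τ ∘ nr) y ((τd _).comp y (hasFDerivAt_nr hy))).const_add 1)).congr_fderiv ?_
    ext v
    simp [NN, inner_add_left, inner_sub_left, inner_sub_right, real_inner_smul_left, real_inner_smul_right,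
      ← τ.eq_1]
    field_simp
    ring
  · choose! D D1 D2 using fun x (hx : ‖x‖ ≤ 1) => Nd hG hx
    refine (convex_closedBall _ _).lipschitzOnWith_of_nnnorm_hasFDerivWithin_le (f' := D) (fun x hx =>
      (D1 x (mem_closedBall_zero_iff.1 hx)).hasFDerivWithinAt) fun x hx => ?_
    rw [mem_closedBall_zero_iff] at hx
    obtain ⟨m1, t1⟩ := τb hx
    obtain ⟨b0, b1, b2⟩ := hb _ (abs_le.1 t1)
    have e : 1 / (4 * (28 + 6 * ‖β‖)) * (28 + 6 * ‖β‖) = 1 / 4 := by field_simp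
    generalize 1 / (4 * (28 + 6 * ‖β‖)) = δ at *
    have nb : ∀ (c k : ℝ) (y : E5) (l : ℝ), |c| ≤ k → ‖y‖ ≤ l → ‖c • y‖ ≤ k * l := fun c k y l h1 h2 =>
      (norm_smul c y).trans_le (mul_le_mul h1 h2 (norm_nonneg _) ((abs_nonneg _).trans h1))
    have j1 := abs_le.1 ((abs_mul (τ x) (G' (τ x))).trans_le (mul_le_mul t1 b1 (abs_nonneg _) zero_le_one))
    have j2 := abs_le.1 ((abs_mul (τ x) (G'' (τ x))).trans_le (mul_le_mul t1 b2 (abs_nonneg _) zero_le_one))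
    rw [abs_le] at b0 b1 b2
    refine ContinuousLinearMap.opNNNorm_le_bound _ _ fun v => NNReal.coe_le_coe.1 ?_
    push_cast
    rw [D2 x hx]
    refine (norm_add₃_le.trans (add_le_add_three (nb _ (4 * δ) _ _ (abs_le.2 ⟨by linarith, by linarith⟩)
      le_rfl) (nb _ (6 * δ) _ (‖β‖ * ‖v‖) (abs_le.2 ⟨by linarith, by linarith⟩) ((β.le_opNorm₂ x v).trans
        (by gcongr; exact mul_le_of_le_one_right β.opNorm_nonneg hx))) (nb _ ‖v‖ _ _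
          ((abs_real_inner_le_norm _ _).trans (mul_le_of_le_one_left (norm_nonneg _) m1))
          ((norm_add_le _ _).trans (add_le_add (nb _ (15 * δ) _ _ (abs_le.2 ⟨by linarith, by linarith⟩) hx)
            (nb _ (9 * δ) _ _ (abs_le.2 ⟨by linarith, by linarith⟩) m1)))))).trans_eq ?_
    rw [← e]
    ring
  · obtain ⟨D, D1, D2⟩ := Nd hG hn.le
    refine ⟨D, D1, fun v => ?_⟩
    simp only [D2, PP, _root_.sub_apply, ContinuousLinearMap.id_apply, innerSL_apply_apply,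
      ContinuousLinearMap.smulRight_apply, map_sub, map_smul, inner_sub_right, real_inner_smul_right,
      ← τ.eq_1, AA, Am, add_mulVec, smul_mulVec, one_mulVec, vecMulVec_mulVec, ← inn, ← βa,
      WithLp.ofLp_add, WithLp.ofLp_smul, WithLp.ofLp_sub, op_smul_eq_smul]
    module
  · simp [AA, Am, B2, add_comm]
  · have c3 : Continuous τ := continuous_iff_continuousAt.2 fun x => (τd x).continuousAt
    have c4 : Continuous fun x : E5 => Bm x.ofLp := by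
      refine continuous_matrix fun i j => ?_
      fin_cases i <;> fin_cases j <;> simp [Bm] <;> fun_prop
    unfold AA Am
    fun_prop

end Pool.Agent.H.MP_17e2c6_gt
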