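import Pool.Agent.H.MP_17e2c6_gt.C

namespace Pool.Agent.H.MP_17e2c6_gt

open Set Metric MeasureTheory Pointwise Matrix Pool.Agent.H.MP_f6b738_gt
open scoped RealInnerProductSpace NNReal

abbrev E2 := EuclideanSpace ℝ (Fin 2)

noncomputable def T1 : E2 →ₗᵢ[ℝ] E5 :=
  ⟨Matrix.toLpLin 2 2 !![1, 0; 0, 1; 0, 0; 0, 0; 0, 0], fun x => by
    rw [EuclideanSpace.norm_eq, EuclideanSpace.norm_eq]
    simp [Fin.sum_univ_five, Matrix.mulVec, dotProduct]⟩

noncomputable def T2 : E2 →ₗᵢ[ℝ] E5 :=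
  ⟨Matrix.toLpLin 2 2 !![0, 0; 0, 0; 0, 0; 1, 0; 0, 1], fun x => by
    rw [EuclideanSpace.norm_eq, EuclideanSpace.norm_eq]
    simp [Fin.sum_univ_five, Matrix.mulVec, dotProduct]⟩

lemma T1a (y : E2) : (T1 y).ofLp = ![y 0, y 1, 0, 0, 0] := by
  ext i
  fin_cases i <;> simp [T1, Matrix.mulVec, dotProduct]

lemma T2a (y : E2) : (T2 y).ofLp = ![0, 0, 0, y 0, y 1] := by
  ext i
  fin_cases i <;> simp [T2, Matrix.mulVec, dotProduct]

lemma A1 (x : E5) : adj T1 x = !₂[x 0, x 1] := ext_inner_right ℝ fun v => by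
  rw [adj_inner, inn, T1a]
  simp [PiLp.inner_apply, dotProduct, Fin.sum_univ_five, mul_comm]

lemma A2 (x : E5) : adj T2 x = !₂[x 3, x 4] := ext_inner_right ℝ fun v => by
  rw [adj_inner, inn, T2a]
  simp [PiLp.inner_apply, dotProduct, Fin.sum_univ_five, mul_comm]

lemma τc : Continuous τ := continuous_iff_continuousAt.2 fun x => (τd x).continuousAt

lemma τn (x : E5) : τ (-x) = -τ x := by simp [τ]

lemma τ1 (y : E2) : τ (T1 y) = y 0 ^ 3 - 3 * y 0 * y 1 ^ 2 := by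
  rw [τ, inn, βa, T1a]
  simp [Bm, mulVec, dotProduct, Fin.sum_univ_five]
  ring

variable {G G' G'' : ℝ → ℝ}

lemma disc (H : Sup (hh G) (NN G G')) (h0 : G 0 = 0) : adj T2 '' body (hh G) = closedBall 0 1 := by
  have a := H.image T2 le_rfl
  have b : ∀ y, adj T2 (NN G G' (T2 y)) = 0 := fun y => by
    have c : τ (T2 y) = 0 := by
      rw [τ, inn, βa, T2a]
      simp [Bm, mulVec, dotProduct, Fin.sum_univ_five]
    have d : adj T2 (β (T2 y) (T2 y)) = 0 := by
      rw [A2, βa, T2a]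
      ext i
      fin_cases i <;> simp [Bm, mulVec, dotProduct, Fin.sum_univ_five]
    simp [NN, c, d, h0]
  simpa [Nm, b] using a

noncomputable def R : E2 ≃ₗᵢ[ℝ] E2 := LinearIsometryEquiv.ofSurjective
  ⟨Matrix.toLpLin 2 2 !![0, -1; 1, 0], fun x => by
    rw [EuclideanSpace.norm_eq, EuclideanSpace.norm_eq]
    simp [Matrix.mulVec, dotProduct, add_comm]⟩ fun y => ⟨!₂[y 1, -y 0], by
      ext i
      fin_cases i <;> simp [Matrix.mulVec, dotProduct]⟩

lemma area {k : ℝ} (H : Sup (hh fun t => k * t) (NN (fun t => k * t) fun _ => k)) :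
    (volume (adj T1 '' body (hh fun t => k * t))).toReal =
      (1 - 4 * k ^ 2) * (volume (closedBall (0 : E2) 1)).toReal := by
  have a := H.image T1 le_rfl
  obtain ⟨C, hC, hl⟩ := (H.res T1).lip
  have dτ : Differentiable ℝ τ := fun x => (τd x).differentiableAt
  have dm : Differentiable ℝ fun x => β x x := fun x => (md x).differentiableAt
  have dN : Differentiable ℝ (NN (fun t => k * t) fun _ => k) := by
    unfold NN
    fun_prop
  have b := vol ((adj T1).differentiable.comp (dN.comp T1.toContinuousLinearMap.differentiable)) hC hl le_rfl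
  have ct : Continuous fun n => τ (T1 n) := τc.comp T1.continuous
  have l1 : ∀ (c : ℝ) (φ : E2 → ℝ), Lam (fun n => c * φ n) = c * Lam φ := fun c φ => integral_const_mul _ _
  have l0 : Lam (fun _ : E2 => (1 : ℝ)) = (volume (closedBall (0 : E2) 1)).toReal := by
    simp [Lam, measureReal_def]
  have u : ∀ n : E2, ‖n‖ = 1 → n 0 ^ 2 + n 1 ^ 2 = 1 := fun n hn => by
    simpa [hn] using (EuclideanSpace.norm_sq_eq n).symm
  have l2 := Lam_iso (.neg ℝ) fun n => τ (T1 n)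
  have l3 := Lam_iso R fun n => τ (T1 n) ^ 2
  have l4 := Lam_add (φ := fun n => τ (T1 n) ^ 2) (ψ := fun n => τ (T1 (R n)) ^ 2) (ct.pow 2)
    ((ct.comp R.continuous).pow 2)
  rw [Lam_congr (ψ := fun _ => 1) fun n hn => by
    simp [τ1, R, mulVec, dotProduct]
    linear_combination ((n 0 ^ 2 + n 1 ^ 2) ^ 2 + n 0 ^ 2 + n 1 ^ 2 + 1) * u n hn] at l4
  rw [Lam_congr (ψ := fun n => (-1) * τ (T1 n)) fun n hn => by simp [τn], l1] at l2
  simp only [closedBall_zero, Set.singleton_zero, add_zero] at a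
  rw [a]
  refine b.trans ((Lam_congr (ψ := fun n => (1 + -7 * k * τ (T1 n)) + -8 * k ^ 2 * τ (T1 n) ^ 2)
    fun n hn => ?_).trans ?_)
  · obtain ⟨D, D1, D2⟩ := Nd (G := fun t => k * t) (G' := fun _ => k) (G'' := fun _ => 0) (fun t _ =>
      ⟨by simpa using (hasDerivAt_id t).const_mul k, hasDerivAt_const _ _⟩) ((T1.norm_map n).trans hn).le
    rw [Dm, ((adj T1).hasFDerivAt.comp n (HasFDerivAt.comp (f := ⇑T1.toContinuousLinearMap) n D1
      T1.toContinuousLinearMap.hasFDerivAt)).fderiv,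
      ContinuousLinearMap.det, ← LinearMap.det_toMatrix (EuclideanSpace.basisFun (Fin 2) ℝ).toBasis,
      det_fin_two]
    simp [LinearMap.toMatrix_apply, D2, A1, NN, τ1, inn, βa, T1a, Bm, mulVec, dotProduct,
      Fin.sum_univ_five, PiLp.inner_apply]
    have := u n hn
    generalize n 0 = x at this ⊢
    generalize n 1 = y at this ⊢
    linear_combination (6 * k * (x ^ 3 - 3 * x * y ^ 2) - 12 * k ^ 2 * (x ^ 3 - 3 * x * y ^ 2) ^ 2 -
      18 * k ^ 2 * (x ^ 2 + y ^ 2) * (x ^ 2 + y ^ 2 - 2)) * this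
  · rw [Lam_add (by fun_prop) (by fun_prop), Lam_add (by fun_prop) (by fun_prop), l1, l1, l0]
    rw [l3, l0] at l4
    linear_combination (7 * k / 2) * l2 + 4 * k ^ 2 * l4

lemma tr (T : E2 →ₗᵢ[ℝ] E5) (K : Set E5) : Module.finrank ℝ T.toLinearMap.range = 2 ∧
    volume (T.toLinearMap.range.orthogonalProjectionOnto '' K) = volume (adj T '' K) := by
  refine ⟨by rw [← T.equivRange.toLinearEquiv.finrank_eq]; simp, ?_⟩
  rw [← T.equivRange.measurePreserving.measure_preimage_emb T.equivRange.toHomeomorph.measurableEmbedding]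
  congr 1
  have e : ∀ x, T.toLinearMap.range.orthogonalProjectionOnto x = T.equivRange (adj T x) := fun x =>
    Subtype.ext (Submodule.eq_starProjection_of_mem_of_inner_eq_zero (T.equivRange _).2 (by
      rintro _ ⟨w, rfl⟩
      change ⟪x - T (adj T x), T w⟫ = 0
      rw [inner_sub_left, T.inner_map_map, adj_inner, sub_self]))
  rw [image_congr fun x _ => e x, ← image_image T.equivRange]
  exact preimage_image_eq _ T.equivRange.injective

theorem main : ∃ K : Set E5, IsCompact K ∧ Convex ℝ K ∧ (interior K).Nonempty ∧ (∃ c : ℝ, ∀ u : E5,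
    ‖u‖ = 1 → ∃ p : Polynomial ℝ, (∀ r > 0, p.eval r = (volume ((ℝ ∙ u)ᗮ.orthogonalProjectionOnto '' K +
      closedBall 0 r)).toReal) ∧ p.coeff 2 = c) ∧ ∃ S₁ S₂ : Submodule ℝ E5, Module.finrank ℝ S₁ = 2 ∧
        Module.finrank ℝ S₂ = 2 ∧ volume (S₁.orthogonalProjectionOnto '' K) ≠
          volume (S₂.orthogonalProjectionOnto '' K) := by
  obtain ⟨δ, δ0, hδ⟩ := cuG
  obtain ⟨ε, ε0, ε1, ε2⟩ : ∃ ε : ℝ, 0 < ε ∧ ε ≤ 1 / 100 ∧ 2 * ε ≤ δ :=
    ⟨min (1 / 100) (δ / 2), by positivity, min_le_left _ _, by linarith [min_le_right (1 / 100) (δ / 2)]⟩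
  obtain ⟨e, e', e'', c, d, c0, c1, c2, e0, he⟩ := ode ε0 ε1
  have q : 5 * ε ^ 2 ≤ ε := by nlinarith
  have hb : ∀ t ∈ Icc (-1 : ℝ) 1, |ε * t| ≤ ε := fun t ht => by
    rw [abs_mul, abs_of_pos ε0]
    exact mul_le_of_le_one_right ε0.le (abs_le.2 ht)
  have H := hδ (fun t => ε * t + e t) (fun t => ε + e' t) e'' (fun t ht => ⟨by
    simpa using ((hasDerivAt_id t).const_mul ε).fun_add (d t ht).1, (d t ht).2.const_add ε⟩) (by fun_prop)
    (by fun_prop) c2 fun t ht => by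
      obtain ⟨a, b, c, -⟩ := he t ht
      refine ⟨(abs_add_le _ _).trans ?_, (abs_add_le _ _).trans ?_, ?_⟩
      · nlinarith [hb t ht]
      · rw [abs_of_pos ε0]
        linarith
      · linarith
  have p : 0 < 1 + ε ^ 2 := by positivity
  have k1 : ε / (1 + ε ^ 2) ≤ ε := div_le_self ε0.le (by nlinarith)
  have k0 : 0 < ε / (1 + ε ^ 2) := by positivity
  have H0 := (hδ (fun t => ε / (1 + ε ^ 2) * t) (fun _ => ε / (1 + ε ^ 2)) (fun _ => 0) (fun t _ => ⟨by
    simpa using (hasDerivAt_id t).const_mul _, hasDerivAt_const _ _⟩) (by fun_prop) (by fun_prop)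
    (by fun_prop) fun t ht => ⟨by
      rw [abs_mul, abs_of_pos k0]
      nlinarith [abs_le.2 ht], by rw [abs_of_pos k0]; linarith, by simpa using δ0.le⟩).su
  have m : ∀ v : E5, τ (nr v) ∈ Icc (-1 : ℝ) 1 := fun v => abs_le.1 (τb (norm_nr_le v)).2
  refine ⟨_, H.su.compact, Sup.convex _, ⟨0, mem_interior_iff_mem_nhds.2 (Filter.mem_of_superset
    (closedBall_mem_nhds 0 one_half_pos) fun x hx v => ?_)⟩, ⟨(6 + c - 27 * ε ^ 2) *
      ∫ w : EuclideanSpace ℝ (Fin 4), ((1 + ‖w‖ ^ 2) ^ 3)⁻¹, fun u hu => ?_⟩, _, _, (tr T1 ∅).1,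
    (tr T2 ∅).1, ?_⟩
  · rw [hh]
    nlinarith [real_inner_le_norm x v, mem_closedBall_zero_iff.1 hx, norm_nonneg v,
      (abs_le.1 (hb _ (m v))).1, (abs_le.1 (he _ (m v)).1).1, mul_nonneg (norm_nonneg v) (show
        0 ≤ 1 / 2 + (ε * τ (nr v) + e (τ (nr v))) by
          linarith [(abs_le.1 (hb _ (m v))).1, (abs_le.1 (he _ (m v)).1).1])]
  · have hu0 : u ≠ 0 := by
      rintro rfl
      simp at hu
    haveI : Fact (Module.finrank ℝ E5 = 4 + 1) := ⟨by simp⟩
    rw [← Submodule.adjoint_subtypeL]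
    refine H.girth (fun n hn => ?_) (.fromOrthogonalSpanSingleton 4 hu0)
      (ℝ ∙ u)ᗮ.subtypeₗᵢ hu fun w => Submodule.mem_orthogonal_singleton_iff_inner_right.1 w.2
    obtain ⟨-, -, -, a1, a2, a3, a4⟩ := he _ (abs_le.1 (τb hn.le).2)
    rw [s2A hn, s2A ((norm_neg n).trans hn), τn, a1, a2, a3]
    linear_combination 2 * a4
  · rw [(tr _ _).2, (tr _ _).2, disc H.su (by simp [e0])]
    intro k
    have a := area H0
    have b : adj T1 '' body (hh fun t => ε * t + e t) ⊆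
        (1 + ε ^ 2) • adj T1 '' body (hh fun t => ε / (1 + ε ^ 2) * t) := by
      rintro _ ⟨x, hx, rfl⟩
      refine ⟨_, ⟨(1 + ε ^ 2)⁻¹ • x, fun v => ?_, rfl⟩, by simp [smul_smul, p.ne']⟩
      rw [real_inner_smul_left, inv_mul_le_iff₀ p]
      refine (hx v).trans ?_
      rw [hh, hh, mul_left_comm]
      refine mul_le_mul_of_nonneg_left ?_ (norm_nonneg _)
      rw [mul_add, ← mul_assoc, mul_div_cancel₀ _ p.ne']
      linarith [(abs_le.1 (he _ (m v)).1).2]
    have b2 := ENNReal.toReal_mono (((H0.compact.image (adj T1).continuous).smul _).measure_lt_top.ne)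
      (k ▸ measure_mono b)
    rw [Measure.addHaar_smul, ENNReal.toReal_mul, a, ENNReal.toReal_ofReal (abs_nonneg _),
      finrank_euclideanSpace_fin, abs_of_pos (pow_pos p _), ← mul_assoc, le_mul_iff_one_le_left
        (ENNReal.toReal_pos (measure_closedBall_pos _ _ one_pos).ne' measure_closedBall_lt_top.ne),
      mul_sub, div_pow, mul_left_comm, mul_div_cancel₀ _ (pow_pos p _).ne'] at b2
    nlinarith [sq_pos_of_pos ε0]

end Pool.Agent.H.MP_17e2c6_gt
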